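import Pool.Agent.Lib.MP_3dbc4a_an_WP.Model

/-!
# MP_3dbc4a_an, project W, block P: the family of polynomials
-/

set_option autoImplicit false

open Set

namespace Pool.Agent.WildW

/-- the polynomial `p + ∑ a_i q_i` -/
noncomputable def pola (p : Polynomial ℝ) (q : Fin 8 → Polynomial ℝ) (a : Fin 8 → ℝ) :
    Polynomial ℝ := p + ∑ i, Polynomial.C (a i) * q i

private theorem pola_eval (p : Polynomial ℝ) (q : Fin 8 → Polynomial ℝ) (a : Fin 8 → ℝ) (x : ℝ) :
    (pola p q a).eval x = p.eval x + ∑ i, a i * (q i).eval x := by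
  unfold pola
  rw [Polynomial.eval_add, Polynomial.eval_finsetSum]
  congr 1
  exact Finset.sum_congr rfl fun i _ => by rw [Polynomial.eval_mul, Polynomial.eval_C]

private theorem pola_der (p : Polynomial ℝ) (q : Fin 8 → Polynomial ℝ) (a : Fin 8 → ℝ) :
    (pola p q a).derivative = pola p.derivative (fun i => (q i).derivative) a := by
  unfold pola
  rw [Polynomial.derivative_add, Polynomial.derivative_sum]
  congr 1
  exact Finset.sum_congr rfl fun i _ => by rw [Polynomial.derivative_C_mul]

private theorem sum_le8 (a u : Fin 8 → ℝ) {A δ : ℝ} (hA : ∀ i, |a i| ≤ A) (hδ : ∀ i, |u i| ≤ δ) :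
    |∑ i, a i * u i| ≤ 8 * (A * δ) := by
  have hA0 : 0 ≤ A := (abs_nonneg _).trans (hA 0)
  refine (Finset.abs_sum_le_sum_abs _ _).trans ?_
  have h1 : ∀ i ∈ Finset.univ, |a i * u i| ≤ A * δ := by
    intro i _
    rw [abs_mul]
    exact mul_le_mul (hA i) (hδ i) (abs_nonneg _) hA0
  refine (Finset.sum_le_card_nsmul _ _ _ h1).trans ?_
  rw [Finset.card_univ, Fintype.card_fin, nsmul_eq_mul]
  norm_num

private theorem close8 {a u : Fin 8 → ℝ} {w v : ℝ} (ha : Cube a) (hw : |w - v| ≤ eps / 9)
    (hu : ∀ i, |u i| ≤ eps / 9) : |w + ∑ i, a i * u i - v| ≤ eps := by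
  have h1 := sum_le8 a u ha hu
  have h2 := eps_pos
  rw [abs_le] at *
  constructor <;> linarith [h1.1, h1.2, hw.1, hw.2]

private theorem diff8 {a a' u : Fin 8 → ℝ} (hu : ∀ i, |u i| ≤ eps / 9) :
    |∑ i, (a i - a' i) * u i| ≤ eps * dist a a' := by
  have h1 := sum_le8 (fun i => a i - a' i) u (A := dist a a') (fun i => by
    have h := dist_le_pi_dist a a' i
    rwa [Real.dist_eq] at h) hu
  have h2 := eps_pos
  have h3 : 0 ≤ dist a a' := dist_nonneg
  have h4 : 0 ≤ eps * dist a a' := mul_nonneg h2.le h3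
  refine h1.trans ?_
  linarith

private theorem sub8 (p : Polynomial ℝ) (q : Fin 8 → Polynomial ℝ) (a a' : Fin 8 → ℝ) (x : ℝ) :
    (pola p q a).eval x - (pola p q a').eval x = ∑ i, (a i - a' i) * (q i).eval x := by
  rw [pola_eval, pola_eval, add_sub_add_left_eq_sub, ← Finset.sum_sub_distrib]
  exact Finset.sum_congr rfl fun i _ => by ring

private theorem single8 (i : Fin 8) (a u : Fin 8 → ℝ) :
    ∑ j, a j * (u j - if j = i then 1 else 0) = ∑ j, a j * u j - a i := by
  have h1 : ∀ j, a j * (u j - if j = i then 1 else 0) = a j * u j - if j = i then a j else 0 := by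
    intro j
    split_ifs <;> ring
  rw [Finset.sum_congr rfl fun j _ => h1 j, Finset.sum_sub_distrib, Finset.sum_ite_eq',
    if_pos (Finset.mem_univ i)]

/-- The family `P_a = p + ∑ a_i q_i` for the polynomials of `exists_polys`: every bound is
`eps / 9 + ∑ |a_i| eps / 9 ≤ eps` resp. `∑ |a_i - a'_i| eps / 9 ≤ eps * dist a a'`
(`dist_le_pi_dist`). -/
theorem exists_fam_aux : ∃ (p : Polynomial ℝ) (q : Fin 8 → Polynomial ℝ) (F : Fam),
    ∀ a x, F.P a x = (pola p q a).eval x := by
  obtain ⟨p, q, hp, hd, hq⟩ := exists_polys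
  have hcut : ∀ (i : Fin 8), ∀ x ∈ (Lt.d i).Wp, ∀ j,
      |(q j).eval x - if j = i then 1 else 0| ≤ eps / 9 := by
    intro i x hx j
    by_cases hji : j = i
    · subst hji
      rw [if_pos rfl]
      exact (hq j (.d j) x hx).1 rfl
    · rw [if_neg hji, sub_zero]
      exact (hq j (.d i) x hx).2.1 fun h => hji (Lt.d.inj h).symm
  have hpl : ∀ (c : Pl), ∀ x ∈ (Lt.p c).Wp, ∀ j, |(q j).eval x| ≤ eps / 9 :=
    fun c x hx j => (hq j (.p c) x hx).2.1 fun h => by cases h
  refine ⟨p, q, ⟨fun a x => (pola p q a).eval x, fun a x => (pola p q a).derivative.eval x,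
    fun a x => (pola p q a).derivative.derivative.eval x, fun a x => ?_, fun a x => ?_,
    fun a ha c x hx => ?_, fun a ha c x hx => ?_, fun a ha c x hx => ?_, fun a ha i x hx => ?_,
    fun a ha i x hx => ?_, fun a ha i x hx => ?_, fun a a' ha ha' c x hx => ?_,
    fun a a' ha ha' c x hx => ?_, fun a a' ha ha' i x hx => ?_⟩, fun a x => rfl⟩
  · exact (pola p q a).hasDerivAt x
  · exact (pola p q a).derivative.hasDerivAt x
  · rw [pola_eval]
    exact close8 ha (hp c x hx).1 (hpl c x hx)
  · rw [pola_der, pola_eval]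
    exact close8 ha (hp c x hx).2.1 fun j => (hq j (.p c) x hx).2.2.1
  · rw [pola_der, pola_der, pola_eval]
    have h := close8 ha (v := 0) (w := p.derivative.derivative.eval x) (by
      rw [sub_zero]
      exact (hp c x hx).2.2) fun j => (hq j (.p c) x hx).2.2.2
    rwa [sub_zero] at h
  · have h := close8 ha (hd i x hx).1 (hcut i x hx)
    rw [single8 i a fun j => (q j).eval x] at h
    rw [pola_eval]
    have h2 : p.eval x + ∑ j, a j * (q j).eval x - (5 / 2 + a i - 2 ^ 20 * (x - cc i) ^ 2) =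
        p.eval x + (∑ j, a j * (q j).eval x - a i) - (5 / 2 - 2 ^ 20 * (x - cc i) ^ 2) := by
      ring
    rw [h2]
    exact h
  · rw [pola_der, pola_eval]
    have h := close8 ha (v := -(2 ^ 21 * (x - cc i))) (w := p.derivative.eval x) (by
      rw [sub_neg_eq_add]
      exact (hd i x hx).2.1) fun j => (hq j (.d i) x hx).2.2.1
    rwa [sub_neg_eq_add] at h
  · rw [pola_der, pola_der, pola_eval]
    have h := close8 ha (v := -2 ^ 21) (w := p.derivative.derivative.eval x) (by
      rw [sub_neg_eq_add]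
      exact (hd i x hx).2.2) fun j => (hq j (.d i) x hx).2.2.2
    rwa [sub_neg_eq_add] at h
  · rw [sub8]
    exact diff8 (hpl c x hx)
  · rw [pola_der, pola_der, sub8]
    exact diff8 fun j => (hq j c x hx).2.2.1
  · have h := diff8 (a := a) (a' := a') (hcut i x hx)
    rw [single8 i (fun j => a j - a' j) fun j => (q j).eval x] at h
    rw [sub8]
    exact h

/-- **P.** The family exists and consists of polynomials of degree `≥ 2`: `P1` is about `3*2^18` on
one window and about `3*2^19` on another one, so it is not constant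
(`Polynomial.natDegree_derivative_lt` / `Polynomial.eq_C_of_natDegree_eq_zero`). -/
theorem exists_fam : ∃ F : Fam, ∀ a, Cube a → ∃ p : Polynomial ℝ, 2 ≤ p.natDegree ∧
    ∀ x, F.P a x = p.eval x := by
  obtain ⟨p, q, F, hF⟩ := exists_fam_aux
  refine ⟨F, fun a ha => ⟨pola p q a, ?_, hF a⟩⟩
  by_contra hcon
  have h1 : (pola p q a).derivative.natDegree ≤ 0 := by
    have := Polynomial.natDegree_derivative_le (pola p q a)
    omega
  have h2 := Polynomial.eq_C_of_natDegree_le_zero h1
  have h3 : ∀ x, F.P1 a x = (pola p q a).derivative.coeff 0 := by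
    intro x
    have h4 : F.P a = fun x => (pola p q a).eval x := funext (hF a)
    have h5 := F.hP a x
    rw [h4] at h5
    have h6 := h5.unique ((pola p q a).hasDerivAt x)
    rw [h6]
    conv_lhs => rw [h2]
    rw [Polynomial.eval_C]
  have hh := h_pos
  have h7 := F.fo1 a ha 0 (cc 0) (by
    show cc 0 ∈ Icc (cc 0 - 1 / 128 - h) (cc 0 + 1 / 128 + h)
    constructor <;> linarith)
  have h8 := F.pl1 a ha .g (Lt.p .g).lo (by
    have h9 := (Lt.p .g).lo_lt_hi
    constructor <;> linarith)
  rw [h3] at h7 h8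
  have h10 := Pl.sl_lo .g
  have h11 : eps ≤ 1 := by
    unfold eps
    rw [div_le_one (by positivity)]
    exact one_le_pow₀ (by norm_num)
  rw [abs_le] at h7 h8
  have h12 := h7.2
  have h13 := h8.1
  rw [sub_self, mul_zero, add_zero] at h12
  linarith

end Pool.Agent.WildW
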