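import Pool.Agent.Lib.MP_3dbc4a_an_WP.WinA

/-!
# MP_3dbc4a_an, project W, block P: the windows are disjoint
-/

set_option autoImplicit false

open Set

namespace Pool.Agent.WildW

private theorem win_h : 0 < h ∧ h ≤ 1 / 2 ^ 40 :=
  ⟨h_pos, le_trans h_hi (by norm_num)⟩

private theorem win_fin {n : ℕ} (j : Fin n) : (0 : ℝ) ≤ (j : ℕ) ∧ ((j : ℕ) : ℝ) + 1 ≤ (n : ℝ) := by
  refine ⟨Nat.cast_nonneg _, ?_⟩
  have h1 : (j : ℕ) + 1 ≤ n := j.2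
  exact_mod_cast h1

private theorem win_lt {n : ℕ} {j j' : Fin n} (hj : j ≠ j') :
    ((j : ℕ) : ℝ) + 1 ≤ ((j' : ℕ) : ℝ) ∨ ((j' : ℕ) : ℝ) + 1 ≤ ((j : ℕ) : ℝ) := by
  have h1 : (j : ℕ) ≠ (j' : ℕ) := fun h2 => hj (Fin.ext h2)
  rcases Nat.lt_or_gt_of_ne h1 with h2 | h2
  · left
    exact_mod_cast h2
  · right
    exact_mod_cast h2

private theorem win_ef (j : Fin (2 ^ 14)) :
    -(3 / 2 * h) ≤ (Pl.e (false, j)).lo ∧ (Pl.e (false, j)).hi ≤ 1 / 8 := by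
  obtain ⟨h1, h2⟩ := lo_e_false j
  obtain ⟨h3, h4⟩ := win_h
  obtain ⟨h5, h6⟩ := win_fin j
  push_cast at h6
  constructor <;> linarith

private theorem win_et (j : Fin (2 ^ 14)) :
    1 / 4 - 3 / 2 * h ≤ (Pl.e (true, j)).lo ∧ (Pl.e (true, j)).hi ≤ 3 / 8 := by
  obtain ⟨h1, h2⟩ := lo_e_true j
  obtain ⟨h3, h4⟩ := win_h
  obtain ⟨h5, h6⟩ := win_fin j
  push_cast at h6
  constructor <;> linarith

private theorem win_d (i : Fin 8) :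
    (Lt.d i).lo = 1 / 2 + ((i : ℕ) : ℝ) / 32 - 1 / 128 ∧
      (Lt.d i).hi = 1 / 2 + ((i : ℕ) : ℝ) / 32 + 1 / 128 ∧ 63 / 128 ≤ (Lt.d i).lo ∧
      (Lt.d i).hi ≤ 93 / 128 := by
  obtain ⟨h5, h6⟩ := win_fin i
  push_cast at h6
  have e1 : (Lt.d i).lo = 1 / 2 + ((i : ℕ) : ℝ) / 32 - 1 / 128 := rfl
  have e2 : (Lt.d i).hi = 1 / 2 + ((i : ℕ) : ℝ) / 32 + 1 / 128 := rfl
  refine ⟨e1, e2, ?_, ?_⟩
  · rw [e1]
    linarith
  · rw [e2]
    linarith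

private theorem win_f (j : KB) :
    2 - h ≤ (Pl.f j).lo ∧ (Pl.f j).hi ≤ 3 - 12 * h := by
  obtain ⟨h3, h4⟩ := win_h
  obtain ⟨h5, h6⟩ := win_fin j
  have h7 := inv_M
  push_cast at h6
  rw [lo_f, hi_f]
  constructor <;> linarith

private theorem win_g : 2 ≤ Pl.g.lo ∧ Pl.g.hi ≤ 3 - 12 * h := by
  obtain ⟨h3, h4⟩ := win_h
  have h1 := lo_g
  have h2 := hi_g
  have h7 := inv_M
  have h8 : 0 < 1 / sg := div_pos one_pos sg_pos
  constructor <;> linarith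

private theorem win_ff {j j' : KB} (hj : ((j : ℕ) : ℝ) + 1 ≤ ((j' : ℕ) : ℝ)) :
    (Pl.f j).hi + 3 / 2 * h < (Pl.f j').lo - 3 / 2 * h := by
  obtain ⟨h3, h4⟩ := win_h
  have h7 := inv_M
  rw [lo_f, hi_f]
  linarith

private theorem win_fg (j : KB) :
    (Pl.f j).hi + 3 / 2 * h < Pl.g.lo - 3 / 2 * h ∨
      Pl.g.hi + 3 / 2 * h < (Pl.f j).lo - 3 / 2 * h := by
  obtain ⟨h3, h4⟩ := win_h
  have h7 := inv_M
  have h1 := lo_g
  have h2 := hi_g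
  rw [lo_f, hi_f]
  rcases Nat.eq_zero_or_pos (j : ℕ) with h0 | h0
  · left
    rw [h0, Nat.cast_zero]
    linarith
  · right
    have h5 : (1 : ℝ) ≤ ((j : ℕ) : ℝ) := by exact_mod_cast h0
    linarith

private theorem win_ee {b : Bool} {j j' : Fin (2 ^ 14)}
    (hj : ((j : ℕ) : ℝ) + 1 ≤ ((j' : ℕ) : ℝ)) :
    (Pl.e (b, j)).hi + 3 / 2 * h < (Pl.e (b, j')).lo - 3 / 2 * h := by
  obtain ⟨h3, h4⟩ := win_h
  cases b
  · obtain ⟨h1, h2⟩ := lo_e_false j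
    obtain ⟨h5, h6⟩ := lo_e_false j'
    linarith
  · obtain ⟨h1, h2⟩ := lo_e_true j
    obtain ⟨h5, h6⟩ := lo_e_true j'
    linarith

private theorem win_dd {i i' : Fin 8} (hj : ((i : ℕ) : ℝ) + 1 ≤ ((i' : ℕ) : ℝ)) :
    (Lt.d i).hi + 3 / 2 * h < (Lt.d i').lo - 3 / 2 * h := by
  obtain ⟨h3, h4⟩ := win_h
  obtain ⟨h1, h2, -, -⟩ := win_d i
  obtain ⟨h5, h6, -, -⟩ := win_d i'
  linarith

/-- the group of a letter and the range of its window -/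
private theorem win_rg (c : Lt) :
    (∃ j, c = .p (.e (false, j)) ∧ -(3 / 2 * h) ≤ c.lo ∧ c.hi ≤ 1 / 8) ∨
    (∃ j, c = .p (.e (true, j)) ∧ 1 / 4 - 3 / 2 * h ≤ c.lo ∧ c.hi ≤ 3 / 8) ∨
    (∃ i, c = .d i ∧ 63 / 128 ≤ c.lo ∧ c.hi ≤ 93 / 128) ∨
    ((∃ j, c = .p (.f j)) ∨ c = .p .g) ∧ 2 - h ≤ c.lo ∧ c.hi ≤ 3 - 12 * h := by
  obtain ⟨h3, h4⟩ := win_h
  rcases c with (⟨⟨b, j⟩⟩ | j | _) | i
  · cases b
    · exact Or.inl ⟨j, rfl, win_ef j⟩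
    · exact Or.inr (Or.inl ⟨j, rfl, win_et j⟩)
  · exact Or.inr (Or.inr (Or.inr ⟨Or.inl ⟨j, rfl⟩, win_f j⟩))
  · refine Or.inr (Or.inr (Or.inr ⟨Or.inr rfl, ?_, win_g.2⟩))
    have h1 := win_g.1
    show 2 - h ≤ Pl.g.lo
    linarith
  · exact Or.inr (Or.inr (Or.inl ⟨i, rfl, (win_d i).2.2⟩))

/-- The enlarged windows `[lo - 3h/2, hi + 3h/2]` are pairwise disjoint. Cases: `e false` is below
`1/8 + 1/2^17`, `e true` in `[1/4 - 3h, 3/8 + 1/2^17]`, the folds in `[63/128, 93/128]`, `f`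
and `g` above `2 - 3h`. Two letters of one family of `e`: the offsets differ by at least `1/2^17`,
the lengths are at most `1/2^18 + 8h`. Two letters `f`: offsets differ by at least
`1/2^20 = 1/sg + 16 h` (`inv_M`). `f 0` and `g`: `4h + 3h/2 < 8h - h/16 - 3h/2`; `g` and `f j`,
`j ≥ 1`: `8h + 3h/2 + h/16 + 3h/2 < 16h - h - 3h/2`. -/
theorem Lt.sep {c c' : Lt} (hc : c ≠ c') :
    c.hi + 3 / 2 * h < c'.lo - 3 / 2 * h ∨ c'.hi + 3 / 2 * h < c.lo - 3 / 2 * h := by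
  obtain ⟨h3, h4⟩ := win_h
  rcases win_rg c with ⟨j, hj, h5, h6⟩ | ⟨j, hj, h5, h6⟩ | ⟨j, hj, h5, h6⟩ | ⟨hj, h5, h6⟩ <;>
    rcases win_rg c' with ⟨j', hj', h7, h8⟩ | ⟨j', hj', h7, h8⟩ | ⟨j', hj', h7, h8⟩ | ⟨hj', h7, h8⟩
  · subst hj hj'
    have hne : j ≠ j' := fun h0 => hc (by rw [h0])
    rcases win_lt hne with h9 | h9
    · exact Or.inl (win_ee h9)
    · exact Or.inr (win_ee h9)
  · left; linarith
  · left; linarith
  · left; linarith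
  · right; linarith
  · subst hj hj'
    have hne : j ≠ j' := fun h0 => hc (by rw [h0])
    rcases win_lt hne with h9 | h9
    · exact Or.inl (win_ee h9)
    · exact Or.inr (win_ee h9)
  · left; linarith
  · left; linarith
  · right; linarith
  · right; linarith
  · subst hj hj'
    have hne : j ≠ j' := fun h0 => hc (by rw [h0])
    rcases win_lt hne with h9 | h9
    · exact Or.inl (win_dd h9)
    · exact Or.inr (win_dd h9)
  · left; linarith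
  · right; linarith
  · right; linarith
  · right; linarith
  · rcases hj with ⟨j, rfl⟩ | rfl <;> rcases hj' with ⟨j', rfl⟩ | rfl
    · have hne : j ≠ j' := fun h0 => hc (by rw [h0])
      rcases win_lt hne with h9 | h9
      · exact Or.inl (win_ff h9)
      · exact Or.inr (win_ff h9)
    · exact win_fg j
    · exact (win_fg j').symm
    · exact absurd rfl hc

/-- The enlarged windows are pairwise disjoint. -/
theorem Wp_disjoint {c c' : Lt} (hc : c ≠ c') : Disjoint c.Wp c'.Wp := by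
  obtain ⟨h3, h4⟩ := win_h
  rw [Set.disjoint_left]
  rintro x ⟨h1, h2⟩ ⟨h5, h6⟩
  rcases Lt.sep hc with h7 | h7 <;> linarith

theorem Wp_sub (c : Lt) : c.Wp ⊆ Icc (-(4 * h)) (3 - 11 * h) := by
  obtain ⟨h3, h4⟩ := win_h
  rintro x ⟨h1, h2⟩
  rcases win_rg c with ⟨j, -, h5, h6⟩ | ⟨j, -, h5, h6⟩ | ⟨j, -, h5, h6⟩ | ⟨-, h5, h6⟩ <;>
    constructor <;> linarith

end Pool.Agent.WildW
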