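import Pool.Agent.Lib.MP_3dbc4a_an_W.Defs

/-!
# MP_3dbc4a_an, project W, block P: the basic inequalities between `b`, `sg`, `h`, `eps`
-/

set_option autoImplicit false

namespace Pool.Agent.WildW

theorem b_pos : 0 < b := by
  unfold b
  positivity

theorem b_lt_one : b < 1 := by
  unfold b
  norm_num

theorem b_eq : b = 1 / 2 ^ 100 := rfl

theorem b_le : b ≤ 1 / 2 ^ 100 := le_rfl

theorem sg_pos : 0 < sg := by
  unfold sg b
  positivity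

theorem sg_lo : 2 ^ 20 ≤ sg := by
  unfold sg b
  norm_num

theorem sg_hi : sg ≤ 2 ^ 20 + 1 / 2 ^ 76 := by
  unfold sg b
  norm_num

theorem h_pos : 0 < h := div_pos b_pos sg_pos

theorem sg_mul_h : sg * h = b := by
  unfold h
  field_simp [sg_pos.ne']

theorem h_eq : h = b / sg := rfl

theorem h_hi : h ≤ 1 / 2 ^ 120 := by
  unfold h
  rw [div_le_iff₀ sg_pos]
  have h1 := sg_lo
  have h2 : b = 1 / 2 ^ 100 := rfl
  rw [h2]
  calc (1 : ℝ) / 2 ^ 100 = 1 / 2 ^ 120 * 2 ^ 20 := by norm_num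
    _ ≤ 1 / 2 ^ 120 * sg := by gcongr

theorem h_lo : 1 / 2 ^ 121 ≤ h := by
  unfold h
  rw [le_div_iff₀ sg_pos]
  have h1 : sg ≤ 2 ^ 21 := by
    have := sg_hi
    have h3 : (2 : ℝ) ^ 20 + 1 / 2 ^ 76 ≤ 2 ^ 21 := by norm_num
    linarith
  have h2 : b = 1 / 2 ^ 100 := rfl
  rw [h2]
  calc (1 : ℝ) / 2 ^ 121 * sg ≤ 1 / 2 ^ 121 * 2 ^ 21 := by gcongr
    _ = 1 / 2 ^ 100 := by norm_num

/-- `1 / M = 1 / sg + 16 h` -/
theorem inv_M : (1 : ℝ) / 2 ^ 20 = 1 / sg + 16 * h := by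
  have h1 := sg_pos.ne'
  have h2 : (1 : ℝ) / 2 ^ 20 * sg = 1 + 16 * b := by
    unfold sg
    ring
  unfold h
  field_simp
  have h3 : (2 : ℝ) ^ 20 ≠ 0 := by positivity
  field_simp at h2
  linarith

theorem mul_h_le_b : 2 ^ 20 * h ≤ b := by
  have h1 := mul_le_mul_of_nonneg_right sg_lo h_pos.le
  rw [sg_mul_h] at h1
  exact h1

theorem b_le_mul_h : b ≤ (2 ^ 20 + 1 / 2 ^ 76) * h := by
  have h1 := mul_le_mul_of_nonneg_right sg_hi h_pos.le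
  rw [sg_mul_h] at h1
  exact h1

theorem inv_sg_le : 1 / sg ≤ 1 / 2 ^ 20 := by
  have h1 := inv_M
  have h2 := h_pos
  linarith

theorem eps_pos : 0 < eps := by
  unfold eps
  positivity

theorem eps_mul : eps * 2 ^ 800 = 1 / 2 ^ 200 := by
  have h1 : (2 : ℝ) ^ 1000 = 2 ^ 800 * 2 ^ 200 := by rw [← pow_add]
  unfold eps
  rw [h1]
  have h2 : (2 : ℝ) ^ 800 ≠ 0 := by positivity
  have h3 : (2 : ℝ) ^ 200 ≠ 0 := by positivity
  field_simp

theorem eps_le_h : eps ≤ h / 2 ^ 800 := by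
  have h1 := h_lo
  rw [le_div_iff₀ (by positivity), eps_mul]
  refine le_trans ?_ h1
  norm_num

theorem eps_le_b : eps ≤ b / 2 ^ 800 := by
  rw [le_div_iff₀ (by positivity), eps_mul]
  unfold b
  norm_num

theorem one_le_mul_sl : (1 : ℝ) ≤ 2 ^ 121 * h := by
  have h1 := h_lo
  have h2 : (1 : ℝ) = 2 ^ 121 * (1 / 2 ^ 121) := by norm_num
  rw [h2]
  gcongr

/-! ### slopes -/

theorem Pl.sl_lo (c : Pl) : 3 * 2 ^ 18 ≤ c.sl := by
  cases c with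
  | e c =>
    show (3 : ℝ) * 2 ^ 18 ≤ if c.1 then 3 * 2 ^ 19 else 3 * 2 ^ 18
    split_ifs <;> norm_num
  | f j =>
    have h1 := sg_lo
    unfold Pl.sl
    have h2 : (3 : ℝ) * 2 ^ 18 ≤ 2 ^ 20 := by norm_num
    linarith
  | g =>
    unfold Pl.sl
    rw [le_div_iff₀ h_pos]
    have h1 := h_hi
    have h2 : (3 : ℝ) * 2 ^ 18 * (1 / 2 ^ 120) ≤ 2 := by norm_num
    have h3 : (3 : ℝ) * 2 ^ 18 * h ≤ 3 * 2 ^ 18 * (1 / 2 ^ 120) := by gcongr
    linarith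

theorem Pl.sl_pos (c : Pl) : 0 < c.sl := lt_of_lt_of_le (by norm_num) c.sl_lo

theorem Pl.bs_nonneg (c : Pl) : 0 ≤ c.bs := by
  cases c <;> simp [Pl.bs]

theorem Pl.bs_le (c : Pl) : c.bs ≤ 2 := by
  cases c <;> simp [Pl.bs]

/-- `b / sl ≤ 3/2 h` for all plain letters -/
theorem Pl.b_div_sl_le (c : Pl) : b / c.sl ≤ 3 / 2 * h := by
  rw [div_le_iff₀ c.sl_pos]
  have h1 := c.sl_lo
  have h2 := b_le_mul_h
  have h3 := h_pos
  have h4 : (2 ^ 20 + 1 / 2 ^ 76) * h ≤ 3 / 2 * h * (3 * 2 ^ 18) := by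
    have : (2 : ℝ) ^ 20 + 1 / 2 ^ 76 ≤ 3 / 2 * (3 * 2 ^ 18) := by norm_num
    nlinarith
  have h5 : 3 / 2 * h * (3 * 2 ^ 18) ≤ 3 / 2 * h * c.sl := by gcongr
  linarith

theorem Pl.b_div_sl_pos (c : Pl) : 0 < b / c.sl := div_pos b_pos c.sl_pos

/-- the affine branch is strictly increasing, with slope `sl` -/
theorem Pl.aff_sub (c : Pl) (x y : ℝ) : c.aff x - c.aff y = c.sl * (x - y) := by
  unfold Pl.aff
  ring

theorem Pl.aff_lo (c : Pl) : c.aff c.lo = c.bs - b := by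
  have h1 := c.sl_pos.ne'
  unfold Pl.aff Pl.lo
  field_simp
  ring

theorem Pl.aff_hi (c : Pl) : c.aff c.hi = 3 + 4 * b := by
  have h1 := c.sl_pos.ne'
  unfold Pl.aff Pl.hi
  field_simp
  ring

theorem Pl.lo_lt_hi (c : Pl) : c.lo < c.hi := by
  have h1 := c.aff_sub c.hi c.lo
  rw [c.aff_lo, c.aff_hi] at h1
  have h2 := c.bs_le
  have h3 := b_pos
  by_contra h4
  have h5 : c.sl * (c.hi - c.lo) ≤ 0 :=
    mul_nonpos_of_nonneg_of_nonpos c.sl_pos.le (by linarith [not_lt.1 h4])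
  linarith

theorem Lt.lo_lt_hi (c : Lt) : c.lo < c.hi := by
  cases c with
  | p c => exact c.lo_lt_hi
  | d i =>
    show cc i - 1 / 128 < cc i + 1 / 128
    linarith

end Pool.Agent.WildW
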