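import Mathlib

/-!
# MP_3dbc4a_an, project W, block P: Weierstrass approximation with two derivatives
-/

set_option autoImplicit false

open Set

namespace Pool.Agent.WildW

private theorem exists_anti (q : Polynomial ℝ) : ∃ p : Polynomial ℝ, p.derivative = q := by
  induction q using Polynomial.induction_on' with
  | add p q hp hq =>
    obtain ⟨a, ha⟩ := hp
    obtain ⟨b, hb⟩ := hq
    exact ⟨a + b, by rw [Polynomial.derivative_add, ha, hb]⟩
  | monomial n a =>
    refine ⟨Polynomial.monomial (n + 1) (a / (n + 1)), ?_⟩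
    rw [Polynomial.derivative_monomial, Nat.add_sub_cancel]
    congr 1
    have : ((n : ℝ) + 1) ≠ 0 := by positivity
    push_cast
    field_simp

/-- every polynomial has an antiderivative with a prescribed value -/
theorem exists_antideriv (q : Polynomial ℝ) (A v : ℝ) :
    ∃ p : Polynomial ℝ, p.derivative = q ∧ p.eval A = v := by
  obtain ⟨p, hp⟩ := exists_anti q
  refine ⟨p + Polynomial.C (v - p.eval A), ?_, ?_⟩
  · rw [Polynomial.derivative_add, Polynomial.derivative_C, add_zero, hp]
  · rw [Polynomial.eval_add, Polynomial.eval_C]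
    ring

/-- Approximation of the derivative gives approximation of the function: `|p - H| ≤ (B - A) δ` on
`[A, B]` if `p A = H A` and `|p' - H'| ≤ δ` (mean value inequality,
`Convex.norm_image_sub_le_of_norm_deriv_le` or `image_norm_le_of_norm_deriv_right_le...`). -/
theorem approx_of_deriv {H : ℝ → ℝ} (hH : Differentiable ℝ H) {A B δ : ℝ} (p : Polynomial ℝ)
    (h0 : p.eval A = H A) (h1 : ∀ x ∈ Icc A B, |p.derivative.eval x - deriv H x| ≤ δ) {x : ℝ}
    (hx : x ∈ Icc A B) : |p.eval x - H x| ≤ (B - A) * δ := by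
  have hAB : A ≤ B := hx.1.trans hx.2
  have hA : A ∈ Icc A B := left_mem_Icc.2 hAB
  have hδ : 0 ≤ δ := (abs_nonneg _).trans (h1 A hA)
  have hd : ∀ y, HasDerivAt (fun z => p.eval z - H z) (p.derivative.eval y - deriv H y) y :=
    fun y => (p.hasDerivAt y).sub (hH y).hasDerivAt
  have h2 := Convex.norm_image_sub_le_of_norm_deriv_le (f := fun z => p.eval z - H z)
    (s := Icc A B) (C := δ) (x := A) (y := x) (fun y _ => (hd y).differentiableAt)
    (fun y hy => by rw [(hd y).deriv]; exact h1 y hy) (convex_Icc A B) hA hx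
  simp only [h0, sub_self, sub_zero, Real.norm_eq_abs] at h2
  refine h2.trans ?_
  rw [abs_of_nonneg (sub_nonneg.2 hx.1), mul_comm]
  exact mul_le_mul_of_nonneg_right (sub_le_sub_right hx.2 _) hδ

/-- Weierstrass approximation with two derivatives: approximate `deriv (deriv H)` by `q2`
(`exists_polynomial_near_of_continuousOn`) with a small error, integrate twice. -/
theorem exists_poly_C2 (H : ℝ → ℝ) (hH : ContDiff ℝ 2 H) {A B : ℝ} (hAB : A < B) {δ : ℝ}
    (hδ : 0 < δ) : ∃ p : Polynomial ℝ, ∀ x ∈ Icc A B, |p.eval x - H x| ≤ δ ∧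
      |p.derivative.eval x - deriv H x| ≤ δ ∧
      |p.derivative.derivative.eval x - deriv (deriv H) x| ≤ δ := by
  have hL : 0 < B - A := sub_pos.2 hAB
  have hH1 : Differentiable ℝ H := hH.differentiable (by norm_num)
  have hH2 : ContDiff ℝ 1 (deriv H) := by
    have h : ContDiff ℝ (1 + 1) H := by
      convert hH using 1
      norm_num
    exact (contDiff_succ_iff_deriv.1 h).2.2
  have hH3 : Differentiable ℝ (deriv H) := hH2.differentiable (by norm_num)
  have hH4 : Continuous (deriv (deriv H)) := hH2.continuous_deriv (by norm_num)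
  set ε : ℝ := δ / (1 + (B - A)) ^ 2 with hε
  have hp : 0 < (1 + (B - A)) ^ 2 := by positivity
  have hε0 : 0 < ε := div_pos hδ hp
  have e1 : ε * (1 + (B - A)) ^ 2 = δ := div_mul_cancel₀ _ hp.ne'
  obtain ⟨q2, hq2⟩ := exists_polynomial_near_of_continuousOn A B _ hH4.continuousOn ε hε0
  obtain ⟨q1, hq1, hq1'⟩ := exists_antideriv q2 A (deriv H A)
  obtain ⟨p, hp1, hp1'⟩ := exists_antideriv q1 A (H A)
  have a2 : ∀ x ∈ Icc A B, |q1.derivative.eval x - deriv (deriv H) x| ≤ ε := by
    intro x hx
    rw [hq1]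
    exact (hq2 x hx).le
  have a1 : ∀ x ∈ Icc A B, |p.derivative.eval x - deriv H x| ≤ (B - A) * ε := by
    intro x hx
    rw [hp1]
    exact approx_of_deriv hH3 q1 hq1' a2 hx
  have a0 : ∀ x ∈ Icc A B, |p.eval x - H x| ≤ (B - A) * ((B - A) * ε) := fun x hx =>
    approx_of_deriv hH1 p hp1' a1 hx
  have i1 : 0 < (B - A) * ε := mul_pos hL hε0
  have i2 : 0 < (B - A) * ((B - A) * ε) := mul_pos hL i1
  have e2 : δ = ε + 2 * ((B - A) * ε) + (B - A) * ((B - A) * ε) := by
    rw [← e1]
    ring
  refine ⟨p, fun x hx => ⟨(a0 x hx).trans ?_, (a1 x hx).trans ?_, ?_⟩⟩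
  · linarith
  · linarith
  · rw [hp1]
    exact (a2 x hx).trans (by linarith)

end Pool.Agent.WildW
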