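import Mathlib

/-!
# MP_3dbc4a_an, project W, block P: gluing of functions by bump functions
-/

set_option autoImplicit false

open Set

namespace Pool.Agent.WildW

/-- Functions on finitely many separated intervals can be glued: `H = ∑ k, χ k * f k` with
`χ k` a `ContDiffBump` centred at `(lo k + hi k)/2` with radii `(hi k - lo k)/2 + r/2` and
`(hi k - lo k)/2 + r` (`ContDiffBump.one_of_mem_closedBall`, `ContDiffBump.zero_of_le_dist`). -/
theorem exists_glue {ι : Type} [Fintype ι] (lo hi : ι → ℝ) (hlh : ∀ k, lo k ≤ hi k) {r : ℝ}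
    (hr : 0 < r) (hsep : ∀ k k', k ≠ k' → hi k + r < lo k' - r ∨ hi k' + r < lo k - r)
    (f : ι → ℝ → ℝ) (hf : ∀ k, ContDiff ℝ 2 (f k)) :
    ∃ H : ℝ → ℝ, ContDiff ℝ 2 H ∧
      ∀ k, ∀ x, lo k - r / 2 < x → x < hi k + r / 2 → H x = f k x := by
  classical
  have hc : ∀ k, ∃ χ : ℝ → ℝ, ContDiff ℝ 2 χ ∧
      (∀ x, lo k - r / 2 < x → x < hi k + r / 2 → χ x = 1) ∧
      ∀ x, x ≤ lo k - r ∨ hi k + r ≤ x → χ x = 0 := by
    intro k
    have h1 := hlh k
    let g : ContDiffBump ((lo k + hi k) / 2) :=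
      ⟨(hi k - lo k) / 2 + r / 2, (hi k - lo k) / 2 + r, by linarith, by linarith⟩
    refine ⟨g, g.contDiff, fun x hx1 hx2 => ?_, fun x hx => ?_⟩
    · refine g.one_of_mem_closedBall ?_
      rw [Real.closedBall_eq_Icc]
      show (lo k + hi k) / 2 - ((hi k - lo k) / 2 + r / 2) ≤ x ∧
        x ≤ (lo k + hi k) / 2 + ((hi k - lo k) / 2 + r / 2)
      constructor <;> linarith
    · refine g.zero_of_le_dist ?_
      show (hi k - lo k) / 2 + r ≤ dist x ((lo k + hi k) / 2)
      rw [Real.dist_eq]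
      rcases hx with h2 | h2
      · rw [abs_of_nonpos (by linarith)]
        linarith
      · rw [abs_of_nonneg (by linarith)]
        linarith
  choose χ c1 c2 c3 using hc
  refine ⟨fun x => ∑ k, χ k x * f k x, ?_, fun k x hx1 hx2 => ?_⟩
  · exact ContDiff.sum fun k _ => (c1 k).mul (hf k)
  · show ∑ k, χ k x * f k x = f k x
    rw [Finset.sum_eq_single k]
    · rw [c2 k x hx1 hx2, one_mul]
    · intro k' _ hk'
      rw [c3 k' x, zero_mul]
      rcases hsep k k' hk'.symm with h1 | h1
      · left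
        linarith
      · right
        linarith
    · intro h1
      exact absurd (Finset.mem_univ k) h1

end Pool.Agent.WildW
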