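import Pool.Agent.Lib.MP_3dbc4a_an_WP.Glue
import Pool.Agent.Lib.MP_3dbc4a_an_WP.Win

/-!
# MP_3dbc4a_an, project W, block P: the smooth model
-/

set_option autoImplicit false

open Set

namespace Pool.Agent.WildW

private def toLt : (KA ⊕ KB ⊕ Unit) ⊕ Fin 8 → Lt
  | .inl (.inl c) => .p (.e c)
  | .inl (.inr (.inl j)) => .p (.f j)
  | .inl (.inr (.inr _)) => .p .g
  | .inr i => .d i

private theorem toLt_surj : Function.Surjective toLt := by
  rintro ((c | j | _) | i)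
  · exact ⟨.inl (.inl c), rfl⟩
  · exact ⟨.inl (.inr (.inl j)), rfl⟩
  · exact ⟨.inl (.inr (.inr ())), rfl⟩
  · exact ⟨.inr i, rfl⟩

/-- there are finitely many letters (`Lt` is a quotient of `KA ⊕ KB ⊕ Unit ⊕ Fin 8`) -/
instance finite_Lt : Finite Lt := Finite.of_surjective toLt toLt_surj

/-- gluing over the enlarged windows -/
private theorem glue_Lt (f : Lt → ℝ → ℝ) (hf : ∀ c, ContDiff ℝ 2 (f c)) :
    ∃ H : ℝ → ℝ, ContDiff ℝ 2 H ∧
      ∀ c : Lt, ∀ x, c.lo - 5 / 4 * h < x → x < c.hi + 5 / 4 * h → H x = f c x := by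
  have hF := Fintype.ofFinite Lt
  have hh := h_pos
  obtain ⟨H, hH, hg⟩ := exists_glue (fun c : Lt => c.lo - h) (fun c : Lt => c.hi + h)
    (fun c => by
      have h1 := c.lo_lt_hi
      show c.lo - h ≤ c.hi + h
      linarith) (r := h / 2) (by linarith)
    (fun c c' hc => by
      show c.hi + h + h / 2 < c'.lo - h - h / 2 ∨ c'.hi + h + h / 2 < c.lo - h - h / 2
      rcases Lt.sep hc with h1 | h1
      · left
        linarith
      · right
        linarith) f hf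
  refine ⟨H, hH, fun c x h1 h2 => hg c x ?_ ?_⟩
  · show c.lo - h - h / 2 / 2 < x
    linarith
  · show x < c.hi + h + h / 2 / 2
    linarith

/-- the model function: affine near the plain windows, a parabola near the fold windows
(`exists_glue` for `lo - h`, `hi + h`, `r = h / 2`, `Lt.sep`) -/
theorem exists_model : ∃ H : ℝ → ℝ, ContDiff ℝ 2 H ∧
    (∀ (c : Pl), ∀ x, (Lt.p c).lo - 5 / 4 * h < x → x < (Lt.p c).hi + 5 / 4 * h →
      H x = c.aff x) ∧
    (∀ (i : Fin 8), ∀ x, (Lt.d i).lo - 5 / 4 * h < x → x < (Lt.d i).hi + 5 / 4 * h →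
      H x = 5 / 2 - 2 ^ 20 * (x - cc i) ^ 2) := by
  obtain ⟨H, hH, hg⟩ := glue_Lt (fun c x => match c with
    | .p c => c.aff x
    | .d i => 5 / 2 - 2 ^ 20 * (x - cc i) ^ 2) (by
      rintro (c | i)
      · show ContDiff ℝ 2 fun x => c.bs + c.sl * (x - c.off)
        fun_prop
      · show ContDiff ℝ 2 fun x => 5 / 2 - 2 ^ 20 * (x - cc i) ^ 2
        fun_prop)
  exact ⟨H, hH, fun c x h1 h2 => hg (.p c) x h1 h2, fun i x h1 h2 => hg (.d i) x h1 h2⟩

/-- cut-off functions of the fold windows -/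
theorem exists_cut (i : Fin 8) : ∃ K : ℝ → ℝ, ContDiff ℝ 2 K ∧
    ∀ (c : Lt), ∀ x, c.lo - 5 / 4 * h < x → x < c.hi + 5 / 4 * h →
      ((c = .d i → K x = 1) ∧ (c ≠ .d i → K x = 0)) := by
  obtain ⟨K, hK, hg⟩ := glue_Lt (fun c _ => if c = .d i then 1 else 0)
    (fun c => contDiff_const)
  refine ⟨K, hK, fun c x h1 h2 => ⟨fun h3 => ?_, fun h3 => ?_⟩⟩
  · rw [hg c x h1 h2, if_pos h3]
  · rw [hg c x h1 h2, if_neg h3]

end Pool.Agent.WildW
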