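import Pool.Agent.Lib.MP_3dbc4a_an_WP.C2W
import Pool.Agent.Lib.MP_3dbc4a_an_WP.ModelA

/-!
# MP_3dbc4a_an, project W, block P: the polynomial approximation of the model
-/

set_option autoImplicit false

open Set

namespace Pool.Agent.WildW

private theorem Model_loc {H G : ℝ → ℝ} {a b x : ℝ} (h : ∀ y, a < y → y < b → H y = G y)
    (ha : a < x) (hb : x < b) :
    H x = G x ∧ deriv H x = deriv G x ∧ deriv (deriv H) x = deriv (deriv G) x := by
  have h1 : H =ᶠ[nhds x] G := by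
    filter_upwards [Ioo_mem_nhds ha hb] with y hy
    exact h y hy.1 hy.2
  exact ⟨h1.eq_of_nhds, h1.deriv_eq, h1.deriv.deriv_eq⟩

private theorem Model_aff (c : Pl) (x : ℝ) : deriv c.aff x = c.sl ∧ deriv (deriv c.aff) x = 0 := by
  have h1 : deriv c.aff = fun _ => c.sl := by
    funext y
    have h2 : HasDerivAt (fun y : ℝ => c.bs + c.sl * (y - c.off)) (c.sl * 1) y :=
      (((hasDerivAt_id y).sub_const c.off).const_mul c.sl).const_add c.bs
    rw [mul_one] at h2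
    exact h2.deriv
  rw [h1]
  exact ⟨rfl, deriv_const x c.sl⟩

private theorem Model_par (i : Fin 8) (x : ℝ) :
    deriv (fun y : ℝ => 5 / 2 - 2 ^ 20 * (y - cc i) ^ 2) x = -(2 ^ 21 * (x - cc i)) ∧
    deriv (deriv (fun y : ℝ => 5 / 2 - 2 ^ 20 * (y - cc i) ^ 2)) x = -(2 ^ 21) := by
  have h1 : deriv (fun y : ℝ => 5 / 2 - 2 ^ 20 * (y - cc i) ^ 2) =
      fun y => -(2 ^ 21 * (y - cc i)) := by
    funext y
    have h2 : HasDerivAt (fun y : ℝ => 5 / 2 - 2 ^ 20 * (y - cc i) ^ 2)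
        (-(2 ^ 20 * (((2 : ℕ) : ℝ) * (y - cc i) ^ (2 - 1) * 1))) y :=
      ((((hasDerivAt_id y).sub_const (cc i)).pow 2).const_mul (2 ^ 20)).const_sub (5 / 2)
    rw [h2.deriv]
    norm_num
    ring
  rw [h1]
  refine ⟨rfl, ?_⟩
  have h3 : HasDerivAt (fun y : ℝ => -(2 ^ 21 * (y - cc i))) (-(2 ^ 21 * 1)) x :=
    (((hasDerivAt_id x).sub_const (cc i)).const_mul (2 ^ 21)).fun_neg
  rw [h3.deriv, mul_one]

private theorem Model_mem (c : Lt) {x : ℝ} (hx : x ∈ c.Wp) :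
    x ∈ Icc (-1 : ℝ) 4 ∧ c.lo - 5 / 4 * h < x ∧ x < c.hi + 5 / 4 * h := by
  have h1 := Wp_sub c hx
  have h2 := h_hi
  have h3 := h_pos
  have h4 : (1 : ℝ) / 2 ^ 120 ≤ 1 / 8 := by norm_num
  have h5 : c.lo - h ≤ x ∧ x ≤ c.hi + h := hx
  rw [mem_Icc] at h1 ⊢
  refine ⟨⟨by linarith [h1.1], by linarith [h1.2]⟩, by linarith [h5.1], by linarith [h5.2]⟩

/-- the polynomials: `exists_poly_C2` on `[-1, 4]` with `δ = eps / 9` for the functions of
`exists_model` and `exists_cut`; on the open set `(lo - 5h/4, hi + 5h/4)` the derivatives are those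
of the affine function, the parabola, the constants (`Filter.EventuallyEq.deriv_eq`); `Wp_sub`. -/
theorem exists_polys : ∃ (p : Polynomial ℝ) (q : Fin 8 → Polynomial ℝ),
    (∀ (c : Pl), ∀ x ∈ (Lt.p c).Wp, |p.eval x - c.aff x| ≤ eps / 9 ∧
      |p.derivative.eval x - c.sl| ≤ eps / 9 ∧ |p.derivative.derivative.eval x| ≤ eps / 9) ∧
    (∀ (i : Fin 8), ∀ x ∈ (Lt.d i).Wp,
      |p.eval x - (5 / 2 - 2 ^ 20 * (x - cc i) ^ 2)| ≤ eps / 9 ∧
      |p.derivative.eval x + 2 ^ 21 * (x - cc i)| ≤ eps / 9 ∧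
      |p.derivative.derivative.eval x + 2 ^ 21| ≤ eps / 9) ∧
    (∀ (i : Fin 8) (c : Lt), ∀ x ∈ c.Wp,
      (c = .d i → |(q i).eval x - 1| ≤ eps / 9) ∧ (c ≠ .d i → |(q i).eval x| ≤ eps / 9) ∧
      |(q i).derivative.eval x| ≤ eps / 9 ∧
      |(q i).derivative.derivative.eval x| ≤ eps / 9) := by
  obtain ⟨H, hH, hHp, hHd⟩ := exists_model
  choose K hK hKc using exists_cut
  have he : 0 < eps / 9 := by
    have := eps_pos
    positivity
  have h14 : (-1 : ℝ) < 4 := by norm_num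
  obtain ⟨p, hp⟩ := exists_poly_C2 H hH h14 he
  choose q hq using fun i => exists_poly_C2 (K i) (hK i) h14 he
  refine ⟨p, q, ?_, ?_, ?_⟩
  · intro c x hx
    obtain ⟨m1, m2, m3⟩ := Model_mem _ hx
    obtain ⟨e0, e1, e2⟩ := Model_loc (hHp c) m2 m3
    obtain ⟨f1, f2⟩ := Model_aff c x
    have h1 := hp x m1
    rw [e1, e0, e2, f1, f2, sub_zero] at h1
    exact h1
  · intro i x hx
    obtain ⟨m1, m2, m3⟩ := Model_mem _ hx
    obtain ⟨e0, e1, e2⟩ := Model_loc (G := fun y : ℝ => 5 / 2 - 2 ^ 20 * (y - cc i) ^ 2)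
      (hHd i) m2 m3
    obtain ⟨f1, f2⟩ := Model_par i x
    have h1 := hp x m1
    rw [e1, e0, e2, f1, f2, sub_neg_eq_add, sub_neg_eq_add] at h1
    exact h1
  · intro i c x hx
    obtain ⟨m1, m2, m3⟩ := Model_mem _ hx
    have h1 := hq i x m1
    by_cases hc : c = .d i
    · obtain ⟨e0, e1, e2⟩ := Model_loc (G := fun _ : ℝ => 1)
        (fun y hy1 hy2 => (hKc i c y hy1 hy2).1 hc) m2 m3
      have f1 : deriv (fun _ : ℝ => (1 : ℝ)) = fun _ => 0 := by
        funext y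
        exact deriv_const y 1
      rw [e1, e0, e2, f1, deriv_const, sub_zero, sub_zero] at h1
      exact ⟨fun _ => h1.1, fun h2 => absurd hc h2, h1.2.1, h1.2.2⟩
    · obtain ⟨e0, e1, e2⟩ := Model_loc (G := fun _ : ℝ => 0)
        (fun y hy1 hy2 => (hKc i c y hy1 hy2).2 hc) m2 m3
      have f1 : deriv (fun _ : ℝ => (0 : ℝ)) = fun _ => 0 := by
        funext y
        exact deriv_const y 0
      rw [e1, e0, e2, f1, deriv_const, sub_zero, sub_zero, sub_zero] at h1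
      exact ⟨fun h2 => absurd h2 hc, fun _ => h1.1, h1.2.1, h1.2.2⟩

end Pool.Agent.WildW
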