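import Pool.Agent.Lib.MP_3dbc4a_an_WP.Num

/-!
# MP_3dbc4a_an, project W, block P: the ends of the windows
-/

set_option autoImplicit false

open Set

namespace Pool.Agent.WildW

/-! ### ends of the windows -/

/-- windows of the letters `e (false, j)`: in `[-3h/2, 1/8]` -/
theorem lo_e_false (j : Fin (2 ^ 14)) :
    (j : ℕ) / 2 ^ 17 - 3 / 2 * h ≤ (Pl.e (false, j)).lo ∧
      (Pl.e (false, j)).hi ≤ (j : ℕ) / 2 ^ 17 + 1 / 2 ^ 18 + 6 * h := by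
  have h1 := (Pl.e (false, j)).b_div_sl_le
  have hs : (Pl.e (false, j)).sl = 3 * 2 ^ 18 := by simp [Pl.sl]
  have ho : (Pl.e (false, j)).off = (j : ℕ) / 2 ^ 17 := by simp [Pl.off]
  have hb : (Pl.e (false, j)).bs = 0 := rfl
  rw [hs] at h1
  unfold Pl.lo Pl.hi
  rw [hs, ho, hb]
  constructor
  · linarith
  · have h2 : (3 - 0 + 4 * b) / (3 * 2 ^ 18) = 1 / 2 ^ 18 + 4 * (b / (3 * 2 ^ 18)) := by
      ring
    rw [h2]
    linarith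

/-- windows of the letters `e (true, j)`: in `[1/4 - 3h/2, 3/8]` -/
theorem lo_e_true (j : Fin (2 ^ 14)) :
    1 / 4 + (j : ℕ) / 2 ^ 17 - 3 / 2 * h ≤ (Pl.e (true, j)).lo ∧
      (Pl.e (true, j)).hi ≤ 1 / 4 + (j : ℕ) / 2 ^ 17 + 1 / 2 ^ 18 + 6 * h := by
  have h1 := (Pl.e (true, j)).b_div_sl_le
  have hs : (Pl.e (true, j)).sl = 3 * 2 ^ 19 := by simp [Pl.sl]
  have ho : (Pl.e (true, j)).off = 1 / 4 + (j : ℕ) / 2 ^ 17 := by simp [Pl.off]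
  have hb : (Pl.e (true, j)).bs = 0 := rfl
  rw [hs] at h1
  unfold Pl.lo Pl.hi
  rw [hs, ho, hb]
  constructor
  · linarith
  · have h2 : (3 - 0 + 4 * b) / (3 * 2 ^ 19) = 1 / 2 ^ 19 + 4 * (b / (3 * 2 ^ 19)) := by
      ring
    have h3 : (1 : ℝ) / 2 ^ 19 ≤ 1 / 2 ^ 18 := by norm_num
    rw [h2]
    linarith

theorem lo_f (j : KB) : (Pl.f j).lo = 2 + (j : ℕ) / 2 ^ 20 - h := by
  show 2 + (j : ℕ) / 2 ^ 20 - b / sg = 2 + (j : ℕ) / 2 ^ 20 - h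
  rfl

theorem hi_f (j : KB) : (Pl.f j).hi = 2 + (j : ℕ) / 2 ^ 20 + 1 / sg + 4 * h := by
  show 2 + (j : ℕ) / 2 ^ 20 + (3 - 2 + 4 * b) / sg = 2 + (j : ℕ) / 2 ^ 20 + 1 / sg + 4 * h
  unfold h
  ring

theorem lo_g : 2 + 1 / sg + 8 * h - h / 16 ≤ Pl.g.lo := by
  show 2 + 1 / sg + 8 * h - h / 16 ≤ 2 + 1 / sg + 8 * h - b / (2 / h)
  have h1 : b / (2 / h) = b * h / 2 := by
    rw [div_div_eq_mul_div]
  have h2 : b * h ≤ 1 / 8 * h := by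
    refine mul_le_mul_of_nonneg_right ?_ h_pos.le
    rw [b_eq]
    norm_num
  rw [h1]
  linarith

theorem hi_g : Pl.g.hi ≤ 2 + 1 / sg + 8 * h + 3 / 2 * h + h / 16 := by
  show 2 + 1 / sg + 8 * h + (3 - 0 + 4 * b) / (2 / h) ≤ 2 + 1 / sg + 8 * h + 3 / 2 * h + h / 16
  have h1 : (3 - 0 + 4 * b) / (2 / h) = 3 / 2 * h + 2 * (b * h) := by
    rw [div_div_eq_mul_div]
    ring
  have h2 : b * h ≤ 1 / 32 * h := by
    refine mul_le_mul_of_nonneg_right ?_ h_pos.le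
    rw [b_eq]
    norm_num
  rw [h1]
  linarith

end Pool.Agent.WildW
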